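import Pool.Agent.W129.BC.Wreath

set_option autoImplicit false

/-!
# Coprime-order automorphism groups in proper minor-closed classes

Let `C` be a subcontraction-closed class of finite graphs which does not contain all finite graphs.
There is `N` such that every automorphism group of a member of `C` whose order has no prime divisor
less than `N` belongs to the smallest class of groups which contains the finite cyclic groups and is
closed under direct products and permutational wreath products.

Idea of the proof. Let `X` have no `K_h` minor. If all prime divisors of the order of `G = Aut X` are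
large then every orbit of a subgroup of `G` with more than one element is large. Since dense graphs
have `K_h` minors, the stabilizers of two adjacent vertices are comparable. Let `K` be a component
of the subgraph induced by the vertices with stabilizers of the least order. The setwise stabilizer
of `K` acts on `K` semifreely, hence (contracting a connected fundamental domain we get a Cayley
graph without `K_h` minor) as an abelian group, and it fixes all neighbours of `K`. Contracting the
translates of `K` to suitable neighbours yields a smaller graph with a group `G'`, and `G` is the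
wreath product of an abelian group by `G'`, permuting the translates of `K`.
-/

namespace Pool.Agent.Results.MP_b06295_co.CoprimeWreath

open SimpleGraph MulAction Pool.Agent.W129.BC Pool.Agent.Helper999.HM
open scoped Pointwise

/-- `Y` is a subcontraction (minor) of `X`: there are pairwise disjoint nonempty connected vertex
sets of `X`, one for each vertex of `Y`, such that the sets of any two adjacent vertices of `Y` are
joined by an edge of `X` (contract each of them to one vertex, delete the rest). -/
def Subcontraction {W V : Type} (Y : SimpleGraph W) (X : SimpleGraph V) : Prop :=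
  ∃ B : W → Set V, (∀ w, (X.induce (B w)).Connected) ∧
    (∀ w w', w ≠ w' → Disjoint (B w) (B w')) ∧
    ∀ w w', Y.Adj w w' → ∃ a ∈ B w, ∃ b ∈ B w', X.Adj a b

/-- `P` is a class of groups, closed under isomorphism, which contains all finite cyclic groups and
is closed under direct products and under permutational wreath products `A ≀_Ω B`, where `B` acts
on a finite set `Ω` (the semidirect product of `Ω → A` by `B`, with `B` permuting the
coordinates). -/
def WreathClosed (P : ∀ (G : Type) [Group G], Prop) : Prop :=
  (∀ (A B : Type) [Group A] [Group B], Nonempty (A ≃* B) → P A → P B) ∧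
  (∀ (A : Type) [Group A], Finite A → IsCyclic A → P A) ∧
  (∀ (A B : Type) [Group A] [Group B], P A → P B → P (A × B)) ∧
  ∀ (A B Ω : Type) [Group A] [Group B] [Finite Ω] [MulAction B Ω], P A → P B →
    P ((Ω → A) ⋊[mulAutArrow] B)

/-- the smallest such class -/
def InW (G : Type) [Group G] : Prop :=
  ∀ P : (∀ (H : Type) [Group H], Prop), WreathClosed P → P G

/-- all members of the class are finite -/
theorem InW.finite {G : Type} [Group G] (h : InW G) : Finite G := by
  refine h (fun H _ => Finite H) ⟨?_, ?_, ?_, ?_⟩
  · rintro A B _ _ ⟨e⟩ hA
    exact Finite.of_equiv A e.toEquiv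
  · intro A _ hA _
    exact hA
  · intro A B _ _ hA hB
    infer_instance
  · intro A B Ω _ _ _ _ hA hB
    exact Finite.of_equiv _ (SemidirectProduct.equivProd).symm

theorem pi_fin {P : ∀ (G : Type) [Group G], Prop} (hP : WreathClosed P) :
    ∀ (k : ℕ) (A : Fin k → Type) [∀ i, Group (A i)], (∀ i, P (A i)) → P (∀ i, A i) := by
  intro k
  induction k with
  | zero =>
    intro A _ _
    exact hP.2.1 _ inferInstance inferInstance
  | succ k ih =>
    intro A _ hA
    have h1 := ih (fun i => A i.succ) (fun i => hA _)
    have h2 := hP.2.2.1 _ _ (hA 0) h1
    refine hP.1 _ _ ⟨?_⟩ h2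
    exact
      { toFun := fun p => Fin.cons p.1 p.2
        invFun := fun f => (f 0, fun i => f i.succ)
        left_inv := fun p => by simp
        right_inv := fun f => Fin.cons_self_tail f
        map_mul' := fun p q => by
          funext i
          refine Fin.cases ?_ (fun i => ?_) i
          · simp
          · simp }

theorem of_comm {P : ∀ (G : Type) [Group G], Prop} (hP : WreathClosed P) (G : Type) [Group G]
    [Finite G] (hc : ∀ a b : G, a * b = b * a) : P G := by
  let _ : CommGroup G := { (inferInstance : Group G) with mul_comm := hc }
  obtain ⟨ι, _, n, hn, ⟨e⟩⟩ := CommGroup.equiv_prod_multiplicative_zmod_of_finite G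
  have h1 : P (∀ i : Fin (Fintype.card ι), Multiplicative (ZMod (n ((Fintype.equivFin ι).symm i)))) := by
    refine pi_fin hP _ _ fun i => hP.2.1 _ ?_ inferInstance
    have : NeZero (n ((Fintype.equivFin ι).symm i)) := ⟨by have := hn ((Fintype.equivFin ι).symm i); omega⟩
    infer_instance
  refine hP.1 _ _ ⟨?_⟩ h1
  refine MulEquiv.trans ?_ e.symm
  exact
    { toFun := fun f i => (Equiv.piCongrLeft (fun i => Multiplicative (ZMod (n i)))
        (Fintype.equivFin ι).symm) f i
      invFun := fun f i => f _
      left_inv := fun f => by
        funext i
        exact Equiv.piCongrLeft_apply_apply _ _ _ _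
      right_inv := fun f => by
        funext i
        obtain ⟨j, rfl⟩ := (Fintype.equivFin ι).symm.surjective i
        exact Equiv.piCongrLeft_apply_apply _ _ _ _
      map_mul' := fun f g => by
        funext i
        obtain ⟨j, rfl⟩ := (Fintype.equivFin ι).symm.surjective i
        rw [Pi.mul_apply, Equiv.piCongrLeft_apply_apply, Equiv.piCongrLeft_apply_apply,
          Equiv.piCongrLeft_apply_apply]
        rfl }

theorem main {P : ∀ (G : Type) [Group G], Prop} (hP : WreathClosed P) (h : ℕ) :
    ∀ (n : ℕ) (V G : Type) [Finite V] [Group G] [Finite G] [MulAction G V] (X : SimpleGraph V),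
      Setup h G X → Nat.card V ≤ n → P G := by
  intro n
  induction n with
  | zero =>
    intro V G _ _ _ _ X S hV
    have : IsEmpty V := by
      rw [← Finite.card_eq_zero_iff]
      omega
    refine of_comm hP G fun a b => ?_
    rw [S.faithful a (fun v => isEmptyElim v), S.faithful b (fun v => isEmptyElim v)]
  | succ n ih =>
    intro V G _ _ _ _ X S hV
    by_cases hne : Nonempty V
    · obtain ⟨v, hv⟩ := Finite.exists_min (fun v : V => Nat.card (stabilizer G v))
      set m := Nat.card (stabilizer G v) with hm
      have hvL : v ∈ LL G (V := V) m := rfl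
      obtain ⟨e, he⟩ := setup_reduce S hv hvL
      obtain ⟨iso⟩ := wreath_iso S hv hvL
      refine hP.1 _ _ ⟨iso⟩ (hP.2.2.2 _ _ _ ?_ ?_)
      · refine of_comm hP _ ?_
        rintro ⟨a, ha⟩ ⟨b, hb⟩
        exact Subtype.ext (QQ_comm S hvL ha hb)
      · refine ih _ _ _ he ?_
        have hnot : v ∉ Vs G X m v := by
          intro hh
          exact hh 1 (by rw [one_smul]; exact mem_cp v)
        have h1 : Nat.card (Vs G X m v) < Nat.card V :=
          Finite.card_subtype_lt (p := fun y => y ∈ Vs G X m v) hnot
        omega
    · have : IsEmpty V := not_nonempty_iff.1 hne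
      refine of_comm hP G fun a b => ?_
      rw [S.faithful a (fun v => isEmptyElim v), S.faithful b (fun v => isEmptyElim v)]

/-- **Coprime-order automorphism groups in proper minor-closed classes.** Let `C` be a class of
finite graphs which is closed under subcontractions (in particular under isomorphism) and does not
contain all finite graphs. Then there is `N` such that every finite group `G` which is isomorphic to
the automorphism group of a member of `C` and whose order is divisible by no prime less than `N`
belongs to the smallest class of groups which contains the finite cyclic groups and is closed under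
direct products and permutational wreath products. -/
theorem result (C : ∀ V : Type, SimpleGraph V → Prop)
    (hfin : ∀ (V : Type) (X : SimpleGraph V), C V X → Finite V)
    (hclosed : ∀ (V W : Type) (X : SimpleGraph V) (Y : SimpleGraph W),
      C V X → Subcontraction Y X → C W Y)
    (hproper : ∃ (V : Type) (X : SimpleGraph V), Finite V ∧ ¬ C V X) :
    ∃ N : ℕ, ∀ (G : Type) [Group G] [Finite G] (V : Type) (X : SimpleGraph V), C V X →
      Nonempty (G ≃* (X ≃g X)) → (∀ p : ℕ, p.Prime → p < N → ¬ p ∣ Nat.card G) → InW G := by
  obtain ⟨V₀, X₀, hV₀, hX₀⟩ := hproper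
  refine ⟨NN (Nat.card V₀), ?_⟩
  intro G _ _ V X hX ⟨e⟩ hp P hP
  have hVfin : Finite V := hfin V X hX
  set h := Nat.card V₀ with hh
  have hno : ¬ HasKMinor X h := by
    rintro ⟨B, hB1, hB2, hB3⟩
    apply hX₀
    let ε : V₀ ≃ Fin h := Finite.equivFin V₀
    refine hclosed V V₀ X X₀ hX ⟨fun v => B (ε v), fun v => hB1 _, fun v w hvw => hB2 _ _ ?_,
      fun v w hvw => hB3 _ _ ?_⟩
    · exact fun hh => hvw (ε.injective hh)
    · exact fun hh => hvw.ne (ε.injective hh)
  let _ : MulAction G V :=
    { smul := fun g v => e g v
      one_smul := fun v => by
        change e 1 v = v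
        rw [map_one]; rfl
      mul_smul := fun a b v => by
        change e (a * b) v = e a (e b v)
        rw [map_mul]; rfl }
  have hsmul : ∀ (g : G) (v : V), g • v = e g v := fun g v => rfl
  refine main hP h (Nat.card V) V G X ?_ le_rfl
  refine ⟨?_, hno, ?_, ?_, ?_⟩
  · intro g u v huv
    rw [hsmul, hsmul]
    exact (e g).map_rel_iff.2 huv
  · intro p hp1 hp2
    by_contra hlt
    exact hp p hp1 (by omega) hp2
  · intro g hg
    apply e.injective
    rw [map_one]
    ext v
    exact hg v
  · intro f hinj _ hf2
    have hbij : Function.Bijective f := Finite.injective_iff_bijective.1 hinj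
    have hadj : ∀ u v, X.Adj u v → X.Adj (f u) (f v) := by
      intro u v huv
      obtain ⟨g, hg1, hg2⟩ := hf2 u v huv
      rw [hg1, hg2, hsmul, hsmul]
      exact (e g).map_rel_iff.2 huv
    have hiff : ∀ u v, X.Adj (f u) (f v) ↔ X.Adj u v := by
      intro u v
      refine ⟨fun hfuv => ?_, hadj u v⟩
      let E : Set (V × V) := {p | X.Adj p.1 p.2}
      have hE : Function.Injective (fun p : E => (⟨(f p.1.1, f p.1.2), hadj _ _ p.2⟩ : E)) := by
        rintro ⟨⟨a, b⟩, hab⟩ ⟨⟨c, d⟩, hcd⟩ heq
        simp only [Subtype.mk.injEq, Prod.mk.injEq] at heq
        exact Subtype.ext (Prod.ext (hinj heq.1) (hinj heq.2))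
      obtain ⟨⟨⟨a, b⟩, hab⟩, heq⟩ := (Finite.injective_iff_surjective.1 hE) ⟨(f u, f v), hfuv⟩
      simp only [Subtype.mk.injEq, Prod.mk.injEq] at heq
      rw [← hinj heq.1, ← hinj heq.2]
      exact hab
    refine ⟨e.symm { toEquiv := Equiv.ofBijective f hbij, map_rel_iff' := fun {a b} => hiff a b },
      fun v => ?_⟩
    rw [hsmul, MulEquiv.apply_symm_apply]
    rfl

end Pool.Agent.Results.MP_b06295_co.CoprimeWreath
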